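import Pool.Agent.LRG.StmtsD

/-!
# Squad LRG, block D, row FEW (helper62)
-/

set_option autoImplicit false

open NumberField Module

namespace Pool.Agent.LRG.H62

open Pool.Agent.LRG

theorem few (hPol : D.PolStmt) (hGnu : D.GnuStmt) : D.FewStmt := by
  intro n hn
  obtain ⟨c, hc⟩ : ∃ c : ℝ, c = max ((n : ℝ) * 2 ^ (n * (n + 2))) ((n : ℝ) ^ 2) := ⟨_, rfl⟩
  refine ⟨c, fun X hX => ?_⟩
  obtain ⟨hfin, hcard⟩ := hPol n X hn.le hX
  have hsub : OneFlds n X ⊆ (fun x : ℂ => IntermediateField.adjoin ℚ {x}) '' D.AlgInt n X := by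
    rintro K ⟨hK, hd, hp, u, hu, hb⟩
    obtain ⟨h1, h2⟩ := hGnu n K u X hn hd hp hu hb
    exact ⟨_, h2, h1⟩
  have himg := hfin.image (fun x : ℂ => IntermediateField.adjoin ℚ {x})
  refine ⟨himg.subset hsub, ?_⟩
  have h1 : (OneFlds n X).ncard ≤ (D.AlgInt n X).ncard :=
    (Set.ncard_le_ncard hsub himg).trans (Set.ncard_image_le hfin)
  have h2 : ((OneFlds n X).ncard : ℝ) ≤ n * (2 ^ (n + 2) * X ^ n) ^ n :=
    le_trans (by exact_mod_cast h1) hcard
  refine h2.trans ?_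
  have h3 : (n : ℝ) * (2 ^ (n + 2) * X ^ n) ^ n = ((n : ℝ) * 2 ^ (n * (n + 2))) * X ^ (n ^ 2) := by
    rw [mul_pow, ← pow_mul, ← pow_mul, mul_comm (n + 2) n, ← sq]
    ring
  rw [h3]
  have hX0 : 0 ≤ X := by linarith
  have h4 : X ^ (n ^ 2) ≤ X ^ c := by
    rw [← Real.rpow_natCast]
    apply Real.rpow_le_rpow_of_exponent_le hX
    rw [hc]
    push_cast
    exact le_max_right _ _
  have h5 : (n : ℝ) * 2 ^ (n * (n + 2)) ≤ c := by rw [hc]; exact le_max_left _ _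
  have h6 : (0 : ℝ) ≤ c := le_trans (by positivity) h5
  exact mul_le_mul h5 h4 (by positivity) h6

end Pool.Agent.LRG.H62
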