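import Pool.Agent.LRG.StmtsD

/-!
# Squad LRG, block D, row SPN (helper62)
-/

set_option autoImplicit false

namespace Pool.Agent.LRG.H62

open Pool.Agent.LRG

theorem spn (hBlk : D.BlkStmt) (hPkb : D.PkbStmt) : D.SpnStmt := by
  intro ι _ L _ _ T δ hr hT hδ hcov hshort
  obtain ⟨k, hk⟩ : ∃ k, Fintype.card ι = k + 1 := ⟨Fintype.card ι - 1, by omega⟩
  have hr0 : (0 : ℝ) < Fintype.card ι := by exact_mod_cast hr
  obtain ⟨t, ht⟩ : ∃ t : ℝ, t = T ^ (1 / (Fintype.card ι : ℝ)) := ⟨_, rfl⟩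
  have ht0 : 0 < t := by
    rw [ht]
    exact Real.rpow_pos_of_pos hT _
  have htr : t ^ (Fintype.card ι) = T := by
    rw [ht, ← Real.rpow_natCast, ← Real.rpow_mul hT.le, one_div, inv_mul_cancel₀ hr0.ne',
      Real.rpow_one]
  obtain ⟨A, hA⟩ : ∃ A : ℝ, A = 4 * Fintype.card ι / δ + 3 := ⟨_, rfl⟩
  have hA0 : 0 < A := by rw [hA]; positivity
  obtain ⟨c, hc⟩ : ∃ c : ℝ, c = D.cSpn (Fintype.card ι) δ := ⟨_, rfl⟩
  have hcA : c = A ^ (Fintype.card ι - 1) + 1 := by rw [hc, hA]; rfl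
  have hc1 : 1 ≤ c := by
    rw [hcA]
    have : 0 < A ^ (Fintype.card ι - 1) := pow_pos hA0 _
    linarith
  have hc0 : 0 < c := by linarith
  rw [← ht] at hshort ⊢
  rw [← hc]
  have hH : 0 < c * t := mul_pos hc0 ht0
  have hlam : 0 < δ * t := mul_pos hδ ht0
  obtain ⟨hfin, hblk⟩ := hBlk ι L (c * t) hH
  by_contra hW
  have hpkb := hPkb ι (Submodule.span ℝ {x : ι → ℝ | x ∈ L ∧ ‖x‖ ≤ c * t}) hfin.toFinset (c * t)
    (δ * t) hW hH hlam (by
      intro x hx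
      rw [Set.Finite.mem_toFinset] at hx
      exact ⟨Submodule.subset_span hx, hx.2⟩) (by
      intro x hx y hy hxy
      rw [Set.Finite.mem_toFinset] at hx hy
      exact hshort (x - y) (L.sub_mem hx.1 hy.1) (sub_ne_zero.2 hxy))
  rw [← Set.ncard_eq_toFinset_card _ hfin] at hpkb
  obtain ⟨N, hN⟩ : ∃ N : ℝ, N = (({x : ι → ℝ | x ∈ L ∧ ‖x‖ ≤ c * t}.ncard : ℕ) : ℝ) := ⟨_, rfl⟩
  rw [← hN] at hblk hpkb
  have hN0 : 0 ≤ N := by rw [hN]; positivity
  have h1 : 4 * (Fintype.card ι : ℝ) * (c * t) / (δ * t) + 3 ≤ c * A := by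
    have h2 : 4 * (Fintype.card ι : ℝ) * (c * t) / (δ * t) = c * (4 * Fintype.card ι / δ) := by
      field_simp
    rw [h2, hA]
    nlinarith
  have h3 : N ≤ (c * A) ^ (Fintype.card ι - 1) := by
    refine hpkb.trans ?_
    apply pow_le_pow_left₀ _ h1
    positivity
  have h4 : (c * t) ^ Fintype.card ι ≤ (c * A) ^ (Fintype.card ι - 1) * T := by
    refine hblk.trans ?_
    calc N * ZLattice.covolume L ≤ N * T := mul_le_mul_of_nonneg_left hcov hN0
      _ ≤ (c * A) ^ (Fintype.card ι - 1) * T := mul_le_mul_of_nonneg_right h3 hT.le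
  rw [mul_pow, htr] at h4
  have h5 : c ^ Fintype.card ι ≤ (c * A) ^ (Fintype.card ι - 1) := le_of_mul_le_mul_right h4 hT
  rw [mul_pow] at h5
  have h6 : c ^ Fintype.card ι = c ^ (Fintype.card ι - 1) * c := by
    rw [hk]
    simp [pow_succ]
  rw [h6] at h5
  have h7 : c ≤ A ^ (Fintype.card ι - 1) := le_of_mul_le_mul_left h5 (pow_pos hc0 _)
  linarith

end Pool.Agent.LRG.H62
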