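import Pool.Agent.LRG.StmtsB2

/-!
# Squad LRG, block B5, row DTX (helper62)
-/

set_option autoImplicit false

namespace Pool.Agent.LRG.H62

open Pool.Agent.LRG

theorem dtx : DtxStmt := by
  classical
  intro A _ q n c₀ P η
  obtain ⟨Q, hQ⟩ : ∃ Q : MvPolynomial (Fin n) A,
      ∀ x : Fin n → A, MvPolynomial.eval (fun i => η i + x i) P = MvPolynomial.eval x Q := by
    refine ⟨MvPolynomial.bind₁ (fun i => MvPolynomial.C (η i) + MvPolynomial.X i) P, fun x => ?_⟩
    induction P using MvPolynomial.induction_on with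
    | C a => simp
    | add P₁ P₂ h₁ h₂ => rw [map_add, map_add, map_add, h₁, h₂]
    | mul_X P₁ i h₁ => rw [map_mul, map_mul, map_mul, h₁]; simp
  obtain ⟨e, he⟩ : ∃ e : (Fin n → Fin c₀) → (Fin n →₀ ℕ),
      ∀ β i, e β i = (β i : ℕ) :=
    ⟨fun β => Finsupp.equivFunOnFinite.symm fun i => (β i : ℕ), fun β i => rfl⟩
  have hinj : Function.Injective e := by
    intro β β' h
    funext i
    apply Fin.ext
    rw [← he β i, ← he β' i, h]
  refine ⟨fun β => Q.coeff (e β) * q ^ (∑ i, (β i : ℕ)),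
    fun ξ => ∑ m ∈ Q.support.filter (fun m => ¬ ∀ i, m i < c₀),
      Q.coeff m * q ^ (∑ i, m i - c₀) * ∏ i, ξ i ^ m i, fun ξ => ?_⟩
  rw [hQ, MvPolynomial.eval_eq']
  have h2 : ∀ m : Fin n →₀ ℕ, Q.coeff m * ∏ i, (q * ξ i) ^ m i =
      Q.coeff m * q ^ (∑ i, m i) * ∏ i, ξ i ^ m i := by
    intro m
    simp_rw [mul_pow]
    rw [Finset.prod_mul_distrib, Finset.prod_pow_eq_pow_sum, mul_assoc]
  rw [Finset.sum_congr rfl fun m _ => h2 m,
    ← Finset.sum_filter_add_sum_filter_not Q.support (fun m => ∀ i, m i < c₀)]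
  refine congrArg₂ (· + ·) ?_ ?_
  · have h3 : ∑ β : Fin n → Fin c₀, Q.coeff (e β) * q ^ (∑ i, (β i : ℕ)) *
        ∏ i, ξ i ^ (β i : ℕ) = ∑ m ∈ Finset.univ.image e,
        Q.coeff m * q ^ (∑ i, m i) * ∏ i, ξ i ^ m i := by
      rw [Finset.sum_image fun a _ b _ h => hinj h]
      refine Finset.sum_congr rfl fun β _ => ?_
      simp only [he]
    rw [h3]
    apply Finset.sum_subset
    · intro m hm
      rw [Finset.mem_filter] at hm
      rw [Finset.mem_image]
      refine ⟨fun i => ⟨m i, hm.2 i⟩, Finset.mem_univ _, ?_⟩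
      ext i
      rw [he]
    · intro m hm hm'
      rw [Finset.mem_image] at hm
      obtain ⟨β, _, rfl⟩ := hm
      have h4 : e β ∉ Q.support := by
        intro h5
        apply hm'
        rw [Finset.mem_filter]
        refine ⟨h5, fun i => ?_⟩
        rw [he]
        exact (β i).2
      rw [MvPolynomial.notMem_support_iff.1 h4, zero_mul, zero_mul]
  · rw [Finset.mul_sum]
    refine Finset.sum_congr rfl fun m hm => ?_
    rw [Finset.mem_filter] at hm
    obtain ⟨-, hm⟩ := hm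
    push Not at hm
    obtain ⟨i, hi⟩ := hm
    have h5 : c₀ ≤ ∑ i, m i :=
      hi.trans (Finset.single_le_sum (f := fun i => m i) (fun _ _ => Nat.zero_le _)
        (Finset.mem_univ i))
    have h6 : q ^ (∑ i, m i) = q ^ c₀ * q ^ (∑ i, m i - c₀) := by
      rw [← pow_add, Nat.add_sub_cancel' h5]
    rw [h6]
    ring

end Pool.Agent.LRG.H62
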