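import Pool.Agent.LRG.StmtsB2

/-!
# Squad LRG, block B5, row NMM (helper62)
-/

set_option autoImplicit false

namespace Pool.Agent.LRG.H62

open Pool.Agent.LRG

theorem nmm : NmmStmt := by
  intro p n q hp η hη
  obtain ⟨s, hs⟩ := exists_nat_gt (4 * ((q : ℝ) + 1) * n * (n + 1) / η)
  have hs0' : (0 : ℝ) < s := lt_of_le_of_lt (by positivity) hs
  have hs0 : 0 < s := by exact_mod_cast hs0'
  have hsη : 4 * ((q : ℝ) + 1) * n * (n + 1) ≤ η * s := by
    rw [div_lt_iff₀ hη] at hs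
    linarith
  obtain ⟨D, hD⟩ : ∃ D, D + 1 = 2 * (q + 1) * s ^ n :=
    ⟨2 * (q + 1) * s ^ n - 1, by have : 0 < 2 * (q + 1) * s ^ n := by positivity
                                 omega⟩
  obtain ⟨L, hLdef⟩ : ∃ L, L = (D + 1) ^ (n + 1) := ⟨_, rfl⟩
  have hL : 2 * ((q + 1) * (s ^ (n + 1)) ^ n) ≤ L := by
    rw [hLdef, hD, mul_pow, ← pow_mul, ← pow_mul, mul_comm n (n + 1), ← mul_assoc]
    apply Nat.mul_le_mul_right
    exact Nat.le_self_pow (by omega) _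
  have hL0 : 0 < L := by
    rw [hLdef]
    positivity
  obtain ⟨M, hM⟩ : ∃ M, M = L - q * (s ^ (n + 1)) ^ n := ⟨_, rfl⟩
  have hLM : L ≤ 2 * M := by
    have h1 : (q + 1) * (s ^ (n + 1)) ^ n = q * (s ^ (n + 1)) ^ n + (s ^ (n + 1)) ^ n := by ring
    omega
  obtain ⟨e, he⟩ : ∃ e, e = s ^ (n + 1) * M := ⟨_, rfl⟩
  have hM0 : 0 < M := by omega
  have he0 : 0 < e := by
    rw [he]
    positivity
  have he2 : s ^ (n + 1) * L ≤ 2 * e := by
    rw [he]
    calc s ^ (n + 1) * L ≤ s ^ (n + 1) * (2 * M) := Nat.mul_le_mul_left _ hLM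
      _ = 2 * (s ^ (n + 1) * M) := by ring
  have he0' : (0 : ℝ) < e := by exact_mod_cast he0
  have hp0 : (0 : ℝ) < p := by exact_mod_cast hp.pos
  have hp1 : (1 : ℝ) ≤ p := by exact_mod_cast hp.one_lt.le
  refine ⟨D, (p : ℝ) ^ n * (L.factorial : ℝ) ^ ((n : ℝ) / e), fun X hX => ?_⟩
  rw [← hLdef]
  obtain ⟨W, hW⟩ : ∃ W, W = L.factorial * X ^ ((n + 1) * D * L) := ⟨_, rfl⟩
  have hW0 : W ≠ 0 := by
    rw [hW]
    exact Nat.mul_ne_zero (Nat.factorial_ne_zero _) (pow_ne_zero _ (by omega))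
  have hb : 1 < p ^ e := Nat.one_lt_pow he0.ne' hp.one_lt
  refine ⟨Nat.log (p ^ e) W + 1, s ^ (n + 1), ?_, ?_⟩
  · rw [← hM, ← he, ← hW]
    have h1 := Nat.lt_pow_succ_log_self hb W
    rw [← pow_mul] at h1
    rwa [mul_comm] at h1
  · have h1 : (p ^ e) ^ Nat.log (p ^ e) W ≤ W := Nat.pow_log_le_self _ hW0
    have h2 : (((p : ℝ) ^ e) ^ Nat.log (p ^ e) W) ≤ W := by exact_mod_cast h1
    obtain ⟨κ, hκ⟩ : ∃ κ, κ = Nat.log (p ^ e) W := ⟨_, rfl⟩
    rw [← hκ] at h2 ⊢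
    have h3 : (p : ℝ) ^ (κ * n) = (((p : ℝ) ^ e) ^ κ) ^ ((n : ℝ) / e) := by
      rw [← pow_mul, ← Real.rpow_natCast, ← Real.rpow_natCast, ← Real.rpow_mul hp0.le]
      congr 1
      push_cast
      field_simp
    have h4 : (p : ℝ) ^ (κ * n) ≤ (W : ℝ) ^ ((n : ℝ) / e) := by
      rw [h3]
      exact Real.rpow_le_rpow (by positivity) h2 (by positivity)
    have hX1 : (1 : ℝ) ≤ X := by exact_mod_cast hX
    have hX0 : (0 : ℝ) ≤ X := by linarith
    have h5 : (W : ℝ) ^ ((n : ℝ) / e) = (L.factorial : ℝ) ^ ((n : ℝ) / e) *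
        (X : ℝ) ^ ((((n + 1) * D * L : ℕ) : ℝ) * ((n : ℝ) / e)) := by
      rw [hW]
      push_cast
      rw [Real.mul_rpow (by positivity) (by positivity), ← Real.rpow_natCast,
        ← Real.rpow_mul hX0]
      push_cast
      rfl
    have h6 : (((n + 1) * D * L : ℕ) : ℝ) * ((n : ℝ) / e) ≤ η := by
      rw [mul_div_assoc', div_le_iff₀ he0']
      have h7 : ((s : ℝ) ^ (n + 1) * L) ≤ 2 * e := by exact_mod_cast he2
      have h8 : (D : ℝ) ≤ 2 * ((q : ℝ) + 1) * s ^ n := by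
        have : (D : ℝ) + 1 = 2 * ((q : ℝ) + 1) * s ^ n := by exact_mod_cast hD
        linarith
      have hLr : (0 : ℝ) < L := by exact_mod_cast hL0
      have h9 : (n : ℝ) * (n + 1) * D * L ≤ (n : ℝ) * (n + 1) * (2 * ((q : ℝ) + 1) * s ^ n) * L := by
        gcongr
      have h10 : (n : ℝ) * (n + 1) * (2 * ((q : ℝ) + 1) * s ^ n) * L =
          (4 * ((q : ℝ) + 1) * n * (n + 1)) * (s ^ n * L) / 2 := by ring
      have h11 : (4 * ((q : ℝ) + 1) * n * (n + 1)) * ((s : ℝ) ^ n * L) ≤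
          (η * s) * (s ^ n * L) := mul_le_mul_of_nonneg_right hsη (by positivity)
      have h12 : (η * s) * ((s : ℝ) ^ n * L) = η * (s ^ (n + 1) * L) := by ring
      have h13 : η * ((s : ℝ) ^ (n + 1) * L) ≤ η * (2 * e) := mul_le_mul_of_nonneg_left h7 hη.le
      have h14 : (((n + 1) * D * L : ℕ) : ℝ) * n = (n : ℝ) * (n + 1) * D * L := by
        push_cast
        ring
      rw [h14]
      linarith
    have h15 : (p : ℝ) ^ ((κ + 1) * n) = (p : ℝ) ^ n * (p : ℝ) ^ (κ * n) := by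
      rw [← pow_add]
      congr 1
      ring
    rw [h15, mul_assoc]
    apply mul_le_mul_of_nonneg_left _ (by positivity)
    refine h4.trans ?_
    rw [h5]
    apply mul_le_mul_of_nonneg_left _ (by positivity)
    exact Real.rpow_le_rpow_of_exponent_le hX1 h6

end Pool.Agent.LRG.H62
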