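import Pool.Agent.LRG.StmtsE

/-!
# Squad LRG, block E, row LOW (helper62)
-/

set_option autoImplicit false

namespace Pool.Agent.LRG.H62

open Pool.Agent.LRG

theorem low : E.LowStmt := by
  intro hLwf hFin r₁ r₂ h3
  obtain ⟨c, T₀, hc, h⟩ := hLwf r₁ r₂ h3
  refine ⟨c, T₀, hc, fun T hT => ?_⟩
  obtain ⟨S, hS, hcard⟩ := h T hT
  refine hcard.trans ?_
  have h1 := Set.ncard_le_ncard hS (hFin r₁ r₂ h3 T)
  rw [Set.ncard_coe_finset] at h1
  exact_mod_cast h1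

end Pool.Agent.LRG.H62
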