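import Pool.Agent.LRG.StmtsE

/-!
# Squad LRG, block E, row ROO (helper62)
-/

set_option autoImplicit false

open Polynomial

namespace Pool.Agent.LRG.H62

open Pool.Agent.LRG Pool.Agent.LRG.E

theorem eval_conj (P : ℤ[X]) (z : ℂ) :
    (P.map (Int.castRingHom ℂ)).eval ((starRingEnd ℂ) z) =
      (starRingEnd ℂ) ((P.map (Int.castRingHom ℂ)).eval z) := by
  rw [eval_map, eval_map, hom_eval₂]
  have h : (starRingEnd ℂ).comp (Int.castRingHom ℂ) = Int.castRingHom ℂ := RingHom.ext_int _ _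
  rw [h]

theorem roo : E.RooStmt := by
  classical
  intro hFct hSpc r₁ r₂ t ht hr
  obtain ⟨-, -, -, hG⟩ := hFct r₁ r₂ t
  obtain ⟨s1, s2, s3⟩ := hSpc r₁ r₂
  have hcard : Fintype.card (Ro r₁ r₂) = r₁ + 2 * r₂ := by
    simp [Fintype.card_sum, Fintype.card_prod, mul_comm]
  have hpos : 0 < Fintype.card (Ro r₁ r₂) := by rw [hcard]; omega
  have htr : (4 : ℝ) ≤ t := by exact_mod_cast ht
  have ht0 : (0 : ℝ) ≤ t := by linarith
  have htn : ‖(t : ℂ)‖ = t := Complex.norm_natCast t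
  obtain ⟨w, hw⟩ : ∃ w : Ro r₁ r₂ → ℂ, w = fun o => (t : ℂ) * om o := ⟨_, rfl⟩
  have hwo : ∀ o, w o = (t : ℂ) * om o := fun o => by rw [hw]
  have hsepT : ∀ o o', o ≠ o' → (t : ℝ) ≤ ‖w o - w o'‖ := by
    intro o o' h
    rw [hwo, hwo, ← mul_sub, norm_mul, htn]
    have := s1 o o' h
    nlinarith
  have hG' : (Gp r₁ r₂ t).map (Int.castRingHom ℂ) = ∏ o : Ro r₁ r₂, (X - C (w o)) := by
    rw [hG, hw]
  have hGmon : ((Gp r₁ r₂ t).map (Int.castRingHom ℂ)).Monic := by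
    rw [hG']
    exact monic_prod_of_monic _ _ fun o _ => monic_X_sub_C _
  have hGdeg : ((Gp r₁ r₂ t).map (Int.castRingHom ℂ)).natDegree = Fintype.card (Ro r₁ r₂) := by
    rw [hG', natDegree_prod_of_monic _ _ fun o _ => monic_X_sub_C _]
    simp
  have hf' : (Gp r₁ r₂ t - 1).map (Int.castRingHom ℂ) =
      (Gp r₁ r₂ t).map (Int.castRingHom ℂ) - 1 := by
    rw [Polynomial.map_sub, Polynomial.map_one]
  have hfmon : ((Gp r₁ r₂ t - 1).map (Int.castRingHom ℂ)).Monic := by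
    rw [hf']
    refine hGmon.sub_of_left ?_
    rw [degree_one, degree_eq_natDegree hGmon.ne_zero, hGdeg]
    exact_mod_cast hpos
  have hfdeg : ((Gp r₁ r₂ t - 1).map (Int.castRingHom ℂ)).natDegree =
      Fintype.card (Ro r₁ r₂) := by
    rw [hf', natDegree_sub_eq_left_of_natDegree_lt, hGdeg]
    rw [natDegree_one, hGdeg]
    exact hpos
  have hGev : ∀ z, ((Gp r₁ r₂ t).map (Int.castRingHom ℂ)).eval z = ∏ o, (z - w o) := by
    intro z
    rw [hG', eval_prod]
    simp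
  have hfw : ∀ o, ‖((Gp r₁ r₂ t - 1).map (Int.castRingHom ℂ)).eval (w o)‖ = 1 := by
    intro o
    rw [hf', eval_sub, hGev, Finset.prod_eq_zero (Finset.mem_univ o) (sub_self _)]
    simp
  obtain ⟨x, hx, hxw⟩ := Pool.Agent.Helper65_Dens.exists_close_roots hfmon hfdeg w
    (fun o o' h => by linarith [hsepT o o' h]) hfw
  have hxw' : ∀ o, ‖x o - w o‖ ≤ 1 := fun o => by rw [norm_sub_rev]; exact hxw o
  have hlow : ∀ o o' : Ro r₁ r₂, o ≠ o' → (t : ℝ) - 1 ≤ ‖x o - w o'‖ := by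
    intro o o' h
    have h1 := hsepT o o' h
    have h2 := hxw o
    have h3 : ‖w o - w o'‖ ≤ ‖w o - x o‖ + ‖x o - w o'‖ := norm_sub_le_norm_sub_add_norm_sub _ _ _
    linarith
  have hroot : ∀ o, ∏ o', (x o - w o') = 1 := by
    intro o
    have h1 : ((Gp r₁ r₂ t - 1).map (Int.castRingHom ℂ)).eval (x o) = 0 := by
      rw [hx, eval_prod, Finset.prod_eq_zero (Finset.mem_univ o)]
      simp
    rw [hf', eval_sub, eval_one, hGev] at h1
    exact sub_eq_zero.1 h1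
  have hone : ∀ o : Ro r₁ r₂, ∏ o' : Ro r₁ r₂, ‖x o - w o'‖ = 1 := by
    intro o
    rw [← norm_prod, hroot o, norm_one]
  have hinj : Function.Injective x := by
    intro o o' h
    by_contra hne
    have h1 := hlow o o' hne
    rw [h] at h1
    have h2 := hxw' o'
    linarith
  refine ⟨x, ⟨hx, fun o => ?_, fun o => ?_, fun o o' h => ?_, fun o o' => ?_, hinj, fun o => ?_⟩⟩
  · have h1 := hone o
    simpa only [hwo] using h1
  · rw [← hwo, ← hcard]
    have h1 := hone o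
    rw [← Finset.mul_prod_erase Finset.univ _ (Finset.mem_univ o)] at h1
    have h2 : ((t : ℝ) - 1) ^ (Fintype.card (Ro r₁ r₂) - 1) ≤
        ∏ o' ∈ Finset.univ.erase o, ‖x o - w o'‖ := by
      have h3 : ((t : ℝ) - 1) ^ (Fintype.card (Ro r₁ r₂) - 1) =
          ∏ _o' ∈ Finset.univ.erase o, ((t : ℝ) - 1) := by
        rw [Finset.prod_const, Finset.card_erase_of_mem (Finset.mem_univ o), Finset.card_univ]
      rw [h3]
      apply Finset.prod_le_prod (fun _ _ => by linarith)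
      intro o' ho'
      exact hlow o o' (Finset.ne_of_mem_erase ho').symm
    have h4 : 0 < ((t : ℝ) - 1) ^ (Fintype.card (Ro r₁ r₂) - 1) := pow_pos (by linarith) _
    rw [le_div_iff₀ h4]
    calc ‖x o - w o‖ * ((t : ℝ) - 1) ^ (Fintype.card (Ro r₁ r₂) - 1)
        ≤ ‖x o - w o‖ * ∏ o' ∈ Finset.univ.erase o, ‖x o - w o'‖ :=
          mul_le_mul_of_nonneg_left h2 (norm_nonneg _)
      _ = 1 := h1
  · rw [← hwo]
    exact hlow o o' h
  · rw [← hwo]
    have h1 : ‖x o - w o'‖ ≤ ‖x o - w o‖ + ‖w o - w o'‖ :=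
      norm_sub_le_norm_sub_add_norm_sub _ _ _
    have h2 : ‖w o - w o'‖ ≤ ‖w o‖ + ‖w o'‖ := norm_sub_le _ _
    have h3 : ∀ o, ‖w o‖ ≤ bd r₁ r₂ * t := by
      intro o
      rw [hwo, norm_mul, htn, mul_comm]
      exact mul_le_mul_of_nonneg_right (s2 o).2 ht0
    have h4 : (1 : ℝ) ≤ bd r₁ r₂ := (s2 o).1.trans (s2 o).2
    have h5 : (1 : ℝ) ≤ bd r₁ r₂ * t := by nlinarith
    have h6 := h3 o
    have h7 := h3 o'
    have h8 := hxw' o
    linarith
  · have h1 : ((Gp r₁ r₂ t - 1).map (Int.castRingHom ℂ)).eval (x o) = 0 := by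
      rw [hx, eval_prod, Finset.prod_eq_zero (Finset.mem_univ o)]
      simp
    have h2 := eval_conj (Gp r₁ r₂ t - 1) (x o)
    rw [h1, map_zero, hx, eval_prod, Finset.prod_eq_zero_iff] at h2
    obtain ⟨o', -, ho'⟩ := h2
    rw [eval_sub, eval_X, eval_C, sub_eq_zero] at ho'
    rw [ho']
    by_contra hne
    have hne' : o' ≠ st o := fun h => hne (by rw [h])
    have h3 := hlow o' (st o) hne'
    rw [← ho', hwo, ← (s3 o).1] at h3
    have h4 : (starRingEnd ℂ) (x o) - (t : ℂ) * (starRingEnd ℂ) (om o) =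
        (starRingEnd ℂ) (x o - w o) := by
      rw [hwo, map_sub, map_mul, Complex.conj_natCast]
    rw [h4, Complex.norm_conj] at h3
    have h5 := hxw' o
    linarith

end Pool.Agent.LRG.H62
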